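import Pool.Agent.W2helper31.GP.Stm

/-!
# Project GP: absolute moments of a standard Gaussian
-/

set_option autoImplicit false

namespace Pool.Agent.W2helper98.GP

open MeasureTheory ProbabilityTheory Pool.Agent.W2helper31.GP
open scoped ENNReal NNReal

theorem gauss_int (f : ℝ → ℝ) : Integrable f (gaussianReal 0 1) ↔
    Integrable (fun x => gaussianPDFReal 0 1 x * f x) volume := by
  rw [gaussianReal_of_var_ne_zero 0 one_ne_zero,
    integrable_withDensity_iff_integrable_smul' (measurable_gaussianPDF 0 1)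
      (Filter.Eventually.of_forall fun x => gaussianPDF_lt_top)]
  simp only [toReal_gaussianPDF, smul_eq_mul]

theorem pdf_mul (nu : ℝ) (hnu : 0 ≤ nu) (x : ℝ) :
    gaussianPDFReal 0 1 x * Real.exp (nu * (x ^ 2 / (2 * nu + 1))) =
      (Real.sqrt (2 * Real.pi))⁻¹ * Real.exp (-(1 / (2 * (2 * nu + 1))) * x ^ 2) := by
  rw [gaussianPDFReal, mul_assoc, ← Real.exp_add]
  have h0 : 2 * nu + 1 ≠ 0 := by positivity
  congr 2
  · simp
  · simp only [sub_zero, NNReal.coe_one, mul_one]
    field_simp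
    ring

theorem exp_int (nu : ℝ) (hnu : 0 ≤ nu) :
    Integrable (fun x => Real.exp (nu * (x ^ 2 / (2 * nu + 1)))) (gaussianReal 0 1) ∧
      ∫ x, Real.exp (nu * (x ^ 2 / (2 * nu + 1))) ∂(gaussianReal 0 1) = Real.sqrt (2 * nu + 1) := by
  have hb : 0 < 1 / (2 * (2 * nu + 1)) := by positivity
  constructor
  · rw [gauss_int]
    simp only [pdf_mul nu hnu]
    exact (integrable_exp_neg_mul_sq hb).const_mul _
  · rw [integral_gaussianReal_eq_integral_smul one_ne_zero]
    simp only [smul_eq_mul, pdf_mul nu hnu]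
    rw [integral_const_mul, integral_gaussian, ← Real.sqrt_inv, ← Real.sqrt_mul (by positivity)]
    congr 1
    have := Real.pi_pos
    field_simp

theorem sq_int : Integrable (fun x : ℝ => x ^ 2) (gaussianReal 0 1) ∧
    ∫ x, x ^ 2 ∂(gaussianReal 0 1) = 1 := by
  have h1 : MemLp (fun x : ℝ => x) 2 (gaussianReal 0 1) := memLp_id_gaussianReal 2
  refine ⟨h1.integrable_sq, ?_⟩
  have h2 := variance_eq_sub h1
  rw [variance_fun_id_gaussianReal, integral_id_gaussianReal] at h2
  simp only [NNReal.coe_one, Pi.pow_apply] at h2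
  linarith

theorem abs_pow (nu x : ℝ) : |x| ^ (2 * nu) = (x ^ 2) ^ nu := by
  rw [Real.rpow_mul (abs_nonneg x), Real.rpow_two, sq_abs]

theorem bound (nu : ℝ) (hnu : 0 ≤ nu) (x : ℝ) : |x| ^ (2 * nu) ≤
    (2 * nu + 1) ^ nu * Real.exp (-nu) * Real.exp (nu * (x ^ 2 / (2 * nu + 1))) := by
  have h0 : 0 < 2 * nu + 1 := by positivity
  have h1 : x ^ 2 ≤ (2 * nu + 1) * Real.exp (x ^ 2 / (2 * nu + 1) - 1) := by
    have h2 := Real.add_one_le_exp (x ^ 2 / (2 * nu + 1) - 1)
    rw [sub_add_cancel, div_le_iff₀ h0] at h2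
    linarith
  rw [abs_pow]
  refine (Real.rpow_le_rpow (sq_nonneg x) h1 hnu).trans_eq ?_
  rw [Real.mul_rpow h0.le (Real.exp_pos _).le, ← Real.exp_mul, mul_assoc, ← Real.exp_add]
  congr 2
  ring

theorem p_MIDL : P_MIDL := by
  intro nu hnu
  obtain ⟨h1, h2⟩ := exp_int nu hnu
  have hint : Integrable (fun x : ℝ => |x| ^ (2 * nu)) (gaussianReal 0 1) := by
    refine Integrable.mono' (h1.const_mul ((2 * nu + 1) ^ nu * Real.exp (-nu))) ?_ ?_
    · refine Measurable.aestronglyMeasurable ?_
      fun_prop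
    · refine Filter.Eventually.of_forall fun x => ?_
      rw [Real.norm_eq_abs, abs_of_nonneg (Real.rpow_nonneg (abs_nonneg x) _)]
      exact bound nu hnu x
  refine ⟨hint, fun hnu1 => ?_, ?_⟩
  · obtain ⟨h3, h4⟩ := sq_int
    have h5 : Integrable (fun x : ℝ => 1 + nu * (x ^ 2 - 1)) (gaussianReal 0 1) :=
      (integrable_const 1).add ((h3.sub (integrable_const 1)).const_mul nu)
    refine (integral_mono hint h5 fun x => ?_).trans_eq ?_
    · show |x| ^ (2 * nu) ≤ 1 + nu * (x ^ 2 - 1)
      rw [abs_pow]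
      have h6 := rpow_one_add_le_one_add_mul_self (s := x ^ 2 - 1)
        (by linarith [sq_nonneg x]) hnu hnu1
      rwa [add_sub_cancel] at h6
    · have h7 : Integrable (fun x : ℝ => x ^ 2 - 1) (gaussianReal 0 1) :=
        h3.sub (integrable_const 1)
      rw [integral_add (integrable_const 1) (h7.const_mul nu),
        integral_const_mul, integral_sub h3 (integrable_const 1), h4]
      simp
  · have h0 : 0 < 2 * nu + 1 := by positivity
    refine (integral_mono hint (h1.const_mul ((2 * nu + 1) ^ nu * Real.exp (-nu)))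
      fun x => bound nu hnu x).trans ?_
    rw [integral_const_mul, h2]
    have h3 : Real.sqrt (2 * nu + 1) ≤ Real.exp nu := by
      rw [Real.sqrt_le_left (Real.exp_pos _).le, ← Real.exp_nat_mul]
      have := Real.add_one_le_exp (2 * nu)
      push_cast
      exact this
    calc (2 * nu + 1) ^ nu * Real.exp (-nu) * Real.sqrt (2 * nu + 1)
        ≤ (2 * nu + 1) ^ nu * Real.exp (-nu) * Real.exp nu :=
          mul_le_mul_of_nonneg_left h3 (by positivity)
      _ = (1 + 2 * nu) ^ nu := by
          rw [mul_assoc, ← Real.exp_add, neg_add_cancel, Real.exp_zero, mul_one, add_comm]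

end Pool.Agent.W2helper98.GP
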